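import Pool.Agent.Helper82.PN.Goals
import Pool.Agent.Helper9.FR.PL

/-!
# Project PN (MP_6fb600_gt): packet VOLC0
-/

set_option autoImplicit false

open MeasureTheory Set
open scoped ENNReal
open Pool.Agent.Helper47.AQ Pool.Agent.Helper82.PN

namespace Pool.Agent.Helper90.PN

/-- the slice of `K` over `ξ` -/
def slice {m : ℕ} (K : Set (Fin (m + 1) → ℝ)) (ξ : Fin m → ℝ) : Set ℝ :=
  {r | (Fin.cons r ξ : Fin (m + 1) → ℝ) ∈ K}

theorem slice_compact {m : ℕ} {K : Set (Fin (m + 1) → ℝ)} (hK : IsCompact K) (ξ : Fin m → ℝ) :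
    IsCompact (slice K ξ) := by
  have h1 : IsClosed {x : Fin (m + 1) → ℝ | Fin.tail x = ξ} := by
    refine isClosed_eq ?_ continuous_const
    exact continuous_pi fun i => continuous_apply _
  have h2 : IsCompact (K ∩ {x : Fin (m + 1) → ℝ | Fin.tail x = ξ}) := hK.inter_right h1
  have h3 : slice K ξ = (fun x : Fin (m + 1) → ℝ => x 0) ''
      (K ∩ {x : Fin (m + 1) → ℝ | Fin.tail x = ξ}) := by
    ext r
    constructor
    · intro hr
      exact ⟨Fin.cons r ξ, ⟨hr, Fin.tail_cons _ _⟩, Fin.cons_zero _ _⟩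
    · rintro ⟨x, ⟨hx, hx2⟩, rfl⟩
      have e : (Fin.cons (x 0) ξ : Fin (m + 1) → ℝ) = x := by
        rw [← (hx2 : Fin.tail x = ξ), Fin.cons_self_tail]
      show (Fin.cons (x 0) ξ : Fin (m + 1) → ℝ) ∈ K
      rw [e]
      exact hx
  rw [h3]
  exact h2.image (continuous_apply 0)

theorem vol_slice {m : ℕ} {K : Set (Fin (m + 1) → ℝ)} (hK : MeasurableSet K) :
    volume K = ∫⁻ ξ : Fin m → ℝ, volume (slice K ξ) := by
  set e := MeasurableEquiv.piFinSuccAbove (fun _ : Fin (m + 1) => ℝ) 0 with he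
  have h1 : MeasurePreserving e.symm :=
    (volume_preserving_piFinSuccAbove (fun _ : Fin (m + 1) => ℝ) 0).symm e
  rw [← h1.measure_preimage hK.nullMeasurableSet, Measure.volume_eq_prod,
    Measure.prod_apply_symm (e.symm.measurable hK)]
  refine lintegral_congr fun ξ => ?_
  congr 1
  ext r
  show e.symm (r, ξ) ∈ K ↔ (Fin.cons r ξ : Fin (m + 1) → ℝ) ∈ K
  have e1 : e.symm (r, ξ) = (Fin.cons r ξ : Fin (m + 1) → ℝ) := by
    simp only [he, MeasurableEquiv.piFinSuccAbove_symm_apply, Fin.insertNthEquiv_zero]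
    rfl
  rw [e1]

theorem meas_slice {m : ℕ} {K : Set (Fin (m + 1) → ℝ)} (hK : MeasurableSet K) :
    Measurable fun ξ : Fin m → ℝ => volume (slice K ξ) := by
  set e := MeasurableEquiv.piFinSuccAbove (fun _ : Fin (m + 1) => ℝ) 0 with he
  have h1 : MeasurableSet (e.symm ⁻¹' K) := e.symm.measurable hK
  have h2 := measurable_measure_prodMk_right (μ := (volume : Measure ℝ)) h1
  have h3 : (fun ξ : Fin m → ℝ => volume (slice K ξ)) =
      fun ξ : Fin m → ℝ => volume ((fun x : ℝ => (x, ξ)) ⁻¹' (e.symm ⁻¹' K)) := by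
    funext ξ
    congr 1
    ext r
    show (Fin.cons r ξ : Fin (m + 1) → ℝ) ∈ K ↔ e.symm (r, ξ) ∈ K
    have e1 : e.symm (r, ξ) = (Fin.cons r ξ : Fin (m + 1) → ℝ) := by
      simp only [he, MeasurableEquiv.piFinSuccAbove_symm_apply, Fin.insertNthEquiv_zero]
      rfl
    rw [e1]
  rw [h3]
  exact h2

theorem gVOLC0 : VOLC0 := by
  intro m K₀ K₁ M ρ h0 h1 hK₀ hK₁ hM hco
  have hm0 := hK₀.comp.measurableSet
  have hm1 := hK₁.comp.measurableSet
  have hmM := hM.comp.measurableSet
  have key : ∀ ξ : Fin m → ℝ, ENNReal.ofReal (1 - ρ) * volume (slice K₀ ξ) +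
      ENNReal.ofReal ρ * volume (slice K₁ ξ) ≤ volume (slice M ξ) := by
    intro ξ
    by_cases hn : (slice K₀ ξ).Nonempty
    · have hn1 : (slice K₁ ξ).Nonempty := by
        obtain ⟨r, hr⟩ := hn
        obtain ⟨y, hy, a, ha⟩ := hco.2.1 _ hr
        refine ⟨y 0, ?_⟩
        have e : (Fin.cons (y 0) ξ : Fin (m + 1) → ℝ) = y := by
          funext i
          refine Fin.cases ?_ (fun i => ?_) i
          · exact Fin.cons_zero _ _
          · have h2 := congrFun ha i.succ
            simp only [Pi.sub_apply, Fin.cons_succ, Pi.smul_apply, smul_eq_mul] at h2 ⊢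
            rw [Pi.single_eq_of_ne (Fin.succ_ne_zero i), mul_zero] at h2
            linarith
        show (Fin.cons (y 0) ξ : Fin (m + 1) → ℝ) ∈ K₁
        rw [e]
        exact hy
      refine Pool.Agent.Helper9.FR.bm_compact h0 h1 (slice_compact hK₀.comp ξ)
        (slice_compact hK₁.comp ξ) hn hn1 ?_
      intro a ha b hb
      have h2 := hco.1 _ ha _ hb ⟨a - b, by
        funext i
        refine Fin.cases ?_ (fun i => ?_) i
        · simp
        · simp⟩
      show (Fin.cons ((1 - ρ) * a + ρ * b) ξ : Fin (m + 1) → ℝ) ∈ M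
      have e : (Fin.cons ((1 - ρ) * a + ρ * b) ξ : Fin (m + 1) → ℝ) =
          (1 - ρ) • (Fin.cons a ξ : Fin (m + 1) → ℝ) + ρ • (Fin.cons b ξ : Fin (m + 1) → ℝ) := by
        funext i
        refine Fin.cases ?_ (fun i => ?_) i
        · simp
        · simp
          ring
      rw [e]
      exact h2
    · have hn1 : slice K₁ ξ = ∅ := by
        rw [← not_nonempty_iff_eq_empty]
        rintro ⟨r, hr⟩
        obtain ⟨x, hx, a, ha⟩ := hco.2.2 _ hr
        apply hn
        refine ⟨x 0, ?_⟩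
        have e : (Fin.cons (x 0) ξ : Fin (m + 1) → ℝ) = x := by
          funext i
          refine Fin.cases ?_ (fun i => ?_) i
          · exact Fin.cons_zero _ _
          · have h2 := congrFun ha i.succ
            simp only [Pi.sub_apply, Fin.cons_succ, Pi.smul_apply, smul_eq_mul] at h2 ⊢
            rw [Pi.single_eq_of_ne (Fin.succ_ne_zero i), mul_zero] at h2
            linarith
        show (Fin.cons (x 0) ξ : Fin (m + 1) → ℝ) ∈ K₀
        rw [e]
        exact hx
      rw [not_nonempty_iff_eq_empty] at hn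
      rw [hn, hn1]
      simp
  have hle : ENNReal.ofReal (1 - ρ) * volume K₀ + ENNReal.ofReal ρ * volume K₁ ≤ volume M := by
    rw [vol_slice hm0, vol_slice hm1, vol_slice hmM,
      ← lintegral_const_mul _ (meas_slice hm0), ← lintegral_const_mul _ (meas_slice hm1),
      ← lintegral_add_left ((meas_slice hm0).const_mul _)]
    exact lintegral_mono key
  have hf0 : volume K₀ ≠ ⊤ := hK₀.comp.measure_lt_top.ne
  have hf1 : volume K₁ ≠ ⊤ := hK₁.comp.measure_lt_top.ne
  have hfM : volume M ≠ ⊤ := hM.comp.measure_lt_top.ne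
  have h2 := ENNReal.toReal_mono hfM hle
  rw [ENNReal.toReal_add (ENNReal.mul_ne_top ENNReal.ofReal_ne_top hf0)
    (ENNReal.mul_ne_top ENNReal.ofReal_ne_top hf1), ENNReal.toReal_mul, ENNReal.toReal_mul,
    ENNReal.toReal_ofReal (by linarith), ENNReal.toReal_ofReal h0.le] at h2
  exact h2

end Pool.Agent.Helper90.PN
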